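import Pool.Agent.KosQ2.NF
import Pool.Agent.KosQ2.NFK
import Pool.Agent.KosQ2.RingK
import Pool.Agent.KosQ2.RingH
import Pool.Agent.KosQ2.Cover
import Pool.Agent.KosQ2.ClassM
import Pool.Agent.KosQ2.BettiA
import Pool.Agent.KosQ2.BettiR
import Pool.Agent.KosQ2.Exa

/-!
# Betti numbers of Koszul algebras and of quadratic monomial algebras with the same h-vector

For every field `K` there is a Koszul algebra `R = S / I` whose h-polynomial is the h-polynomial
of some quadratic monomial algebra, but every quadratic monomial algebra `A` with the same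
h-polynomial has `β_{4,5}(A) < β_{4,5}(R)`.

The example is
`R = K[a,b,c,d,x1,x2,x3,y1,y2] / (ac, ad, ab - bd, a^2 + bc, b^2, x_i y_j)`,
with h-polynomial `1 + 4z - z^2 - 11z^3 + 6z^4 + 8z^5 - 8z^6 + 2z^7`.
-/

set_option autoImplicit false

namespace Pool.Agent.Results.MP_4913c2_al.BettiNumbers

open Pool.Agent.KosQ2

universe u

theorem result (K : Type u) [Field K] :
    ∃ (n : ℕ) (I : Ideal (MvPolynomial (Fin n) K)), Homog I ∧ I ≤ irr n K ^ 2 ∧ Koszul I ∧
      ∃ h : Polynomial ℤ, IsH I h ∧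
        (∃ (m : ℕ) (E : Set (Fin m →₀ ℕ)), Quadratic E ∧ IsH (monIdeal K E) h) ∧
        ∀ (m : ℕ) (E : Set (Fin m →₀ ℕ)), Quadratic E → IsH (monIdeal K E) h →
          betti (monIdeal K E) 4 5 < betti I 4 5 := by
  obtain ⟨ι, X, rk, hX⟩ := exists_filt9
  obtain ⟨I, hI, hhom, hle, hfr⟩ := nf9.exists_ideal K
  have hser : hilb I = PowerSeries.mk
      (fun j => ((Nat.card {μ : Fin 9 →₀ ℕ // μ.degree = j ∧ nf9.Std μ} : ℕ) : ℤ)) := by
    ext j
    simp [hilb, hfr j]
  have h1 : hR.eval 1 ≠ 0 := by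
    simp [hR]
  have hxy' : ∀ i j : Fin 9, (i = 4 ∨ i = 5 ∨ i = 6) → (j = 7 ∨ j = 8) →
      (MvPolynomial.X i * MvPolynomial.X j : MvPolynomial (Fin 9) K) ∈ I := by
    intro i j hi hj
    rw [hI]
    have h2 : (MvPolynomial.X i * MvPolynomial.X j : MvPolynomial (Fin 9) K) =
        MvPolynomial.monomial (del i + del j) 1 := by
      simp [MvPolynomial.X, MvPolynomial.monomial_mul]
    rw [h2, NFK.phi_monomial, nf9_xy i j hi hj]
    simp
  refine ⟨9, I, hhom, hle, nf9.koszul K X rk hX I hI, hR, ⟨h1, 5, ?_⟩, ⟨9, E0, isH_E0 K⟩, ?_⟩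
  · rw [hser, hilb9]
  · intro m E hE hH
    obtain ⟨c, hc, hF, hP⟩ := cover K E hE hH
    rw [betti_mon_zero K E hE (noJoin_of_cover E hE c hc hF hP)]
    exact betti_pos K I hhom hle hxy'

end Pool.Agent.Results.MP_4913c2_al.BettiNumbers
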